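import Mathlib

set_option autoImplicit false

/-!
# Heights of divisors of `x^n - 1`
-/

open Polynomial

namespace Pool.Agent.Helper431Heights

/-- The height of an integer polynomial: the largest absolute value of a coefficient. -/
noncomputable def height (f : ℤ[X]) : ℕ :=
  f.support.sup (fun k => (f.coeff k).natAbs)

/-- `B n` is the largest height of a divisor of `x^n - 1` in `ℤ[x]`. -/
noncomputable def B (n : ℕ) : ℕ :=
  sSup {h : ℕ | ∃ f : ℤ[X], f ∣ X ^ n - 1 ∧ height f = h}

theorem natAbs_coeff_le_height (f : ℤ[X]) (k : ℕ) : (f.coeff k).natAbs ≤ height f := by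
  by_cases hk : k ∈ f.support
  · exact Finset.le_sup (f := fun k => (f.coeff k).natAbs) hk
  · rw [notMem_support_iff.mp hk]; simp

theorem height_le {f : ℤ[X]} {h : ℕ} (hf : ∀ k, (f.coeff k).natAbs ≤ h) : height f ≤ h :=
  Finset.sup_le fun k _ => hf k

theorem height_neg (f : ℤ[X]) : height (-f) = height f := by
  unfold height
  rw [support_neg]
  simp

theorem X_pow_sub_one_ne_zero {n : ℕ} (hn : 0 < n) : (X ^ n - 1 : ℤ[X]) ≠ 0 := by
  have h := X_pow_sub_C_ne_zero hn (1 : ℤ)
  rwa [map_one] at h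

/-- A unit of `ℤ[x]` is `1` or `-1`. -/
theorem unit_eq {u : ℤ[X]} (hu : IsUnit u) : u = 1 ∨ u = -1 := by
  obtain ⟨c, hc, rfl⟩ := Polynomial.isUnit_iff.mp hu
  rcases Int.isUnit_iff.mp hc with h | h <;> subst h
  · left; simp
  · right; simp

/-- Associated polynomials have the same height. -/
theorem height_eq_of_associated {f g : ℤ[X]} (h : Associated f g) : height f = height g := by
  obtain ⟨u, rfl⟩ := h
  rcases unit_eq u.isUnit with hu | hu <;> rw [hu]
  · simp
  · rw [mul_neg, mul_one, height_neg]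

/-- The set of heights of divisors of `x^n - 1` is finite. -/
theorem finite_heights {n : ℕ} (hn : 0 < n) :
    {h : ℕ | ∃ f : ℤ[X], f ∣ X ^ n - 1 ∧ height f = h}.Finite := by
  classical
  have h0 := X_pow_sub_one_ne_zero hn
  let y : Associates ℤ[X] := Associates.mk (X ^ n - 1)
  have hy : y ≠ 0 := Associates.mk_ne_zero.mpr h0
  have : Fintype {x : Associates ℤ[X] // x ∣ y} := UniqueFactorizationMonoid.fintypeSubtypeDvd y hy
  refine (Set.finite_range (fun x : {x : Associates ℤ[X] // x ∣ y} => height (Quotient.out x.1))).subset ?_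
  rintro h ⟨f, hf, rfl⟩
  refine ⟨⟨Associates.mk f, Associates.mk_dvd_mk.mpr hf⟩, ?_⟩
  apply height_eq_of_associated
  exact Associates.mk_eq_mk_iff_associated.mp (Quotient.out_eq _)

theorem height_le_B {n : ℕ} (hn : 0 < n) {f : ℤ[X]} (hf : f ∣ X ^ n - 1) : height f ≤ B n :=
  le_csSup (finite_heights hn).bddAbove ⟨f, hf, rfl⟩

theorem B_le {n h : ℕ} (hh : ∀ f : ℤ[X], f ∣ X ^ n - 1 → height f ≤ h) : B n ≤ h := by
  refine csSup_le ⟨height 1, 1, one_dvd _, rfl⟩ ?_
  rintro _ ⟨f, hf, rfl⟩
  exact hh f hf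

end Pool.Agent.Helper431Heights
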