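import Pool.Agent.Helper431_heights.Basic

set_option autoImplicit false

/-!
# Coefficients of products of `Φ_q(x^(q^i))`, `Φ_{2q}(x^(q^i))`
-/

open Polynomial

namespace Pool.Agent.Helper431Heights

/-- coefficients of a geometric sum -/
theorem coeff_geom_sum (q n : ℕ) :
    (∑ j ∈ Finset.range q, (X : ℤ[X]) ^ j).coeff n = if n < q then 1 else 0 := by
  rw [finsetSum_coeff]
  simp only [coeff_X_pow]
  simp

/-- coefficients of a quadratic polynomial -/
theorem coeff_tri (a b c : ℤ) (s : ℕ) :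
    (C a + C b * X + C c * X ^ 2 : ℤ[X]).coeff s =
      if s = 0 then a else if s = 1 then b else if s = 2 then c else 0 := by
  rw [coeff_add, coeff_add, coeff_C, coeff_C_mul, coeff_C_mul, coeff_X, coeff_X_pow]
  split_ifs <;> omega

/-- the section lemma -/
theorem coeff_section {q : ℕ} (hq : 0 < q) (Q H : ℤ[X]) (hQ : ∀ n, 3 * q ≤ n → Q.coeff n = 0)
    (m r : ℕ) (hr : r < q) :
    (Q * expand ℤ q H).coeff (m * q + r) =
      ((C (Q.coeff r) + C (Q.coeff (q + r)) * X + C (Q.coeff (2 * q + r)) * X ^ 2) * H).coeff m := by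
  have h1 : contract q (X ^ (q - r) * Q) =
      X * (C (Q.coeff r) + C (Q.coeff (q + r)) * X + C (Q.coeff (2 * q + r)) * X ^ 2) := by
    ext s
    rw [coeff_contract hq.ne', coeff_X_pow_mul']
    rcases s with _ | s
    · rw [if_neg (by omega), coeff_X_mul_zero]
    · rw [coeff_X_mul, coeff_tri]
      rcases s with _ | _ | _ | s
      · rw [if_pos (by omega)]
        have : (0 + 1) * q - (q - r) = r := by omega
        rw [this]
        rfl
      · rw [if_pos (by omega)]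
        have : (0 + 1 + 1) * q - (q - r) = q + r := by omega
        rw [this]
        rfl
      · rw [if_pos (by omega)]
        have : (0 + 1 + 1 + 1) * q - (q - r) = 2 * q + r := by omega
        rw [this]
        rfl
      · have h4 : 4 * q ≤ (s + 1 + 1 + 1 + 1) * q := Nat.mul_le_mul_right q (by omega)
        rw [if_pos (by omega), hQ _ (by omega), if_neg (by omega), if_neg (by omega),
          if_neg (by omega)]
  have h2 : (contract q (X ^ (q - r) * Q * expand ℤ q H)).coeff (m + 1) =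
      (contract q (X ^ (q - r) * Q) * H).coeff (m + 1) := by
    rw [contract_mul_expand hq.ne']
  rw [h1, mul_assoc X, coeff_X_mul, coeff_contract hq.ne', mul_assoc, coeff_X_pow_mul'] at h2
  have h3 : (m + 1) * q - (q - r) = m * q + r := by
    rw [add_mul, one_mul]
    omega
  rw [if_pos (by rw [add_mul, one_mul]; omega), h3] at h2
  exact h2

/-- The four kinds of factors at one level. -/
noncomputable def Pt (q : ℕ) : ℕ → ℤ[X]
  | 0 => 1
  | 1 => ∑ j ∈ Finset.range q, X ^ j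
  | 2 => ∑ j ∈ Finset.range q, (-X) ^ j
  | _ => ∑ j ∈ Finset.range q, X ^ (2 * j)

/-- Their coefficients. -/
def pc (q : ℕ) : ℕ → ℤ → ℤ
  | 0, n => if n = 0 then 1 else 0
  | 1, n => if 0 ≤ n ∧ n < q then 1 else 0
  | 2, n => if 0 ≤ n ∧ n < q then (if n % 2 = 0 then 1 else -1) else 0
  | _, n => if 0 ≤ n ∧ n < 2 * q ∧ n % 2 = 0 then 1 else 0

theorem coeff_Pt (q t n : ℕ) : (Pt q t).coeff n = pc q t n := by
  match t with
  | 0 => simp [Pt, pc, coeff_one]
  | 1 =>
    simp only [Pt, pc]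
    rw [coeff_geom_sum]
    split_ifs <;> first | rfl | omega
  | 2 =>
    simp only [Pt, pc]
    rw [finsetSum_coeff]
    have : ∀ j ∈ Finset.range q, ((-X : ℤ[X]) ^ j).coeff n = if j = n then (-1) ^ n else 0 := by
      intro j _
      rw [neg_pow, ← C_1, ← C_neg, ← C_pow, coeff_C_mul, coeff_X_pow]
      split_ifs with h1 h2 h2
      · subst h1; simp
      · exact absurd h1.symm h2
      · exact absurd h2.symm h1
      · simp
    rw [Finset.sum_congr rfl this, Finset.sum_ite_eq']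
    simp only [Finset.mem_range]
    by_cases hn : n < q
    · rw [if_pos hn, if_pos ⟨by omega, by exact_mod_cast hn⟩]
      rcases Nat.even_or_odd n with he | ho
      · rw [he.neg_one_pow, if_pos]
        obtain ⟨k, hk⟩ := he
        omega
      · rw [ho.neg_one_pow, if_neg]
        obtain ⟨k, hk⟩ := ho
        omega
    · rw [if_neg hn, if_neg]
      rintro ⟨_, h⟩
      exact hn (by exact_mod_cast h)
  | (t + 3) =>
    simp only [Pt, pc]
    rw [finsetSum_coeff]
    simp only [coeff_X_pow]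
    by_cases hn : n < 2 * q ∧ n % 2 = 0
    · rw [if_pos ⟨by omega, by omega, by omega⟩, Finset.sum_eq_single (n / 2)]
      · rw [if_pos (by omega)]
      · intro j _ hj
        rw [if_neg (by omega)]
      · intro h
        exact absurd (Finset.mem_range.mpr (by omega)) h
    · rw [if_neg (by omega)]
      apply Finset.sum_eq_zero
      intro j hj
      have := Finset.mem_range.mp hj
      rw [if_neg (by omega)]

/-- The allowed triples up to sign. -/
def Base (a b c : ℤ) : Prop :=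
  (a = 0 ∧ b = 0 ∧ c = 0) ∨ (a = 1 ∧ b = 0 ∧ c = 0) ∨ (a = 0 ∧ b = 1 ∧ c = 0) ∨
  (a = 2 ∧ b = 0 ∧ c = 0) ∨ (a = 0 ∧ b = 2 ∧ c = 0) ∨ (a = -1 ∧ b = 1 ∧ c = 0) ∨
  (a = 1 ∧ b = 1 ∧ c = 0) ∨ (a = -1 ∧ b = 0 ∧ c = 1)

/-- The allowed triples. -/
def Good (a b c : ℤ) : Prop := Base a b c ∨ Base (-a) (-b) (-c)

theorem Good.neg {a b c : ℤ} (h : Good a b c) : Good (-a) (-b) (-c) := by
  rcases h with h | h
  · right; simpa using h
  · left; exact h

/-- coefficients of the product -/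
def ec (q t : ℕ) (a b c : ℤ) (n : ℤ) : ℤ :=
  a * pc q t n + b * pc q t (n - 1) + c * pc q t (n - 2)

theorem ec_neg (q t : ℕ) (a b c n : ℤ) : ec q t (-a) (-b) (-c) n = - ec q t a b c n := by
  unfold ec; ring

instance (a b c : ℤ) : Decidable (Good a b c) := by
  unfold Good Base
  infer_instance

theorem base_step {q : ℕ} (hq : q % 2 = 1) (hq3 : 3 ≤ q) (t : ℕ) {a b c : ℤ} (h : Base a b c)
    (r : ℕ) (hr : r < q) :
    Good (ec q t a b c r) (ec q t a b c (q + r)) (ec q t a b c (2 * q + r)) := by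
  match t with
  | 0 =>
    simp only [ec, pc]
    rcases h with ⟨rfl, rfl, rfl⟩ | ⟨rfl, rfl, rfl⟩ | ⟨rfl, rfl, rfl⟩ | ⟨rfl, rfl, rfl⟩ |
      ⟨rfl, rfl, rfl⟩ | ⟨rfl, rfl, rfl⟩ | ⟨rfl, rfl, rfl⟩ | ⟨rfl, rfl, rfl⟩ <;>
      (try simp only [zero_mul, add_zero, zero_add]) <;>
      (try split_ifs) <;> first | (exfalso; omega) | decide
  | 1 =>
    simp only [ec, pc]
    rcases h with ⟨rfl, rfl, rfl⟩ | ⟨rfl, rfl, rfl⟩ | ⟨rfl, rfl, rfl⟩ | ⟨rfl, rfl, rfl⟩ |
      ⟨rfl, rfl, rfl⟩ | ⟨rfl, rfl, rfl⟩ | ⟨rfl, rfl, rfl⟩ | ⟨rfl, rfl, rfl⟩ <;>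
      (try simp only [zero_mul, add_zero, zero_add]) <;>
      (try split_ifs) <;> first | (exfalso; omega) | decide
  | 2 =>
    simp only [ec, pc]
    rcases h with ⟨rfl, rfl, rfl⟩ | ⟨rfl, rfl, rfl⟩ | ⟨rfl, rfl, rfl⟩ | ⟨rfl, rfl, rfl⟩ |
      ⟨rfl, rfl, rfl⟩ | ⟨rfl, rfl, rfl⟩ | ⟨rfl, rfl, rfl⟩ | ⟨rfl, rfl, rfl⟩ <;>
      (try simp only [zero_mul, add_zero, zero_add]) <;>
      (try split_ifs) <;> first | (exfalso; omega) | decide
  | (t + 3) =>
    simp only [ec, pc]
    rcases h with ⟨rfl, rfl, rfl⟩ | ⟨rfl, rfl, rfl⟩ | ⟨rfl, rfl, rfl⟩ | ⟨rfl, rfl, rfl⟩ |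
      ⟨rfl, rfl, rfl⟩ | ⟨rfl, rfl, rfl⟩ | ⟨rfl, rfl, rfl⟩ | ⟨rfl, rfl, rfl⟩ <;>
      (try simp only [zero_mul, add_zero, zero_add]) <;>
      (try split_ifs) <;> first | (exfalso; omega) | decide

theorem good_step {q : ℕ} (hq : q % 2 = 1) (hq3 : 3 ≤ q) (t : ℕ) {a b c : ℤ} (h : Good a b c)
    (r : ℕ) (hr : r < q) :
    Good (ec q t a b c r) (ec q t a b c (q + r)) (ec q t a b c (2 * q + r)) := by
  rcases h with h | h
  · exact base_step hq hq3 t h r hr
  · have := (base_step hq hq3 t h r hr).neg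
    simpa only [ec_neg, neg_neg] using this

end Pool.Agent.Helper431Heights
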