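import Pool.Agent.Helper431_heights.Core

set_option autoImplicit false

open Polynomial

namespace Pool.Agent.Helper431Heights

/-- product of the factors of `b` levels -/
noncomputable def Pr (q : ℕ) (t : ℕ → ℕ) (b : ℕ) : ℤ[X] :=
  ∏ i ∈ Finset.range b, expand ℤ (q ^ i) (Pt q (t i))

theorem Pr_succ (q : ℕ) (t : ℕ → ℕ) (b : ℕ) :
    Pr q t (b + 1) = Pt q (t 0) * expand ℤ q (Pr q (fun i => t (i + 1)) b) := by
  unfold Pr
  rw [Finset.prod_range_succ', map_prod, mul_comm]
  congr 1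
  · rw [pow_zero, expand_one]
  · apply Finset.prod_congr rfl
    intro i _
    rw [expand_expand, pow_succ']

theorem coeff_tri_mul (a b c : ℤ) (P : ℤ[X]) (n : ℕ) :
    ((C a + C b * X + C c * X ^ 2) * P).coeff n =
      a * P.coeff n + b * (if 1 ≤ n then P.coeff (n - 1) else 0) +
        c * (if 2 ≤ n then P.coeff (n - 2) else 0) := by
  have h : (C a + C b * X + C c * X ^ 2) * P = C a * P + C b * (X ^ 1 * P) + C c * (X ^ 2 * P) := by
    ring
  rw [h, coeff_add, coeff_add, coeff_C_mul, coeff_C_mul, coeff_C_mul, coeff_X_pow_mul',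
    coeff_X_pow_mul']

theorem pc_neg (q t : ℕ) {n : ℤ} (hn : n < 0) : pc q t n = 0 := by
  match t with
  | 0 => simp only [pc]; rw [if_neg (by omega)]
  | 1 => simp only [pc]; rw [if_neg (by omega)]
  | 2 => simp only [pc]; rw [if_neg (by omega)]
  | (t + 3) => simp only [pc]; rw [if_neg (by omega)]

theorem coeff_EP (q t : ℕ) (a b c : ℤ) (n : ℕ) :
    ((C a + C b * X + C c * X ^ 2) * Pt q t).coeff n = ec q t a b c n := by
  rw [coeff_tri_mul, ec, coeff_Pt]
  congr 1
  · congr 1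
    congr 1
    split_ifs with h
    · rw [coeff_Pt]; congr 1; omega
    · rw [pc_neg]; omega
  · congr 1
    split_ifs with h
    · rw [coeff_Pt]; congr 1; omega
    · rw [pc_neg]; omega

theorem pc_large {q t : ℕ} {n : ℤ} (hq : 3 ≤ q) (hn : 2 * (q : ℤ) - 1 ≤ n) : pc q t n = 0 := by
  match t with
  | 0 => simp only [pc]; rw [if_neg (by omega)]
  | 1 => simp only [pc]; rw [if_neg (by omega)]
  | 2 => simp only [pc]; rw [if_neg (by omega)]
  | (t + 3) => simp only [pc]; rw [if_neg (by omega)]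

theorem good_bound {a b c : ℤ} (h : Good a b c) : a.natAbs ≤ 2 ∧ b.natAbs ≤ 2 ∧ c.natAbs ≤ 2 := by
  unfold Good Base at h
  omega

/-- The main bound. -/
theorem main_bound {q : ℕ} (hq : q % 2 = 1) (hq3 : 3 ≤ q) (b : ℕ) :
    ∀ (t : ℕ → ℕ) (x y z : ℤ), Good x y z → ∀ n : ℕ,
      (((C x + C y * X + C z * X ^ 2) * Pr q t b).coeff n).natAbs ≤ 2 := by
  induction b with
  | zero =>
    intro t x y z h n
    have hb := good_bound h
    unfold Pr
    rw [Finset.range_zero, Finset.prod_empty, mul_one, coeff_tri]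
    split_ifs
    · exact hb.1
    · exact hb.2.1
    · exact hb.2.2
    · simp
  | succ b ih =>
    intro t x y z h n
    have hq0 : 0 < q := by omega
    rw [Pr_succ, ← mul_assoc]
    have hn : n = (n / q) * q + n % q := by
      rw [mul_comm]; exact (Nat.div_add_mod n q).symm
    rw [hn, coeff_section hq0 _ _ _ _ _ (Nat.mod_lt _ hq0), coeff_EP, coeff_EP, coeff_EP]
    · apply ih
      have := good_step hq hq3 (t 0) h (n % q) (Nat.mod_lt _ hq0)
      push_cast
      push_cast at this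
      exact this
    · intro k hk
      rw [coeff_EP, ec, pc_large hq3, pc_large hq3, pc_large hq3]
      · ring
      · omega
      · omega
      · omega

/-- a divisor of `g * h` with `g` prime either divides `h` or is `g` times a divisor of `h` -/
theorem dvd_prime_mul {g h f : ℤ[X]} (hg : Prime g) (hf : f ∣ g * h) :
    f ∣ h ∨ ∃ f', f = g * f' ∧ f' ∣ h := by
  obtain ⟨k, hk⟩ := hf
  rcases hg.dvd_or_dvd (Dvd.intro h hk : g ∣ f * k) with h1 | h1
  · right
    obtain ⟨f', rfl⟩ := h1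
    refine ⟨f', rfl, k, ?_⟩
    apply mul_left_cancel₀ hg.ne_zero
    rw [hk, mul_assoc]
  · left
    obtain ⟨k', rfl⟩ := h1
    refine ⟨k', ?_⟩
    apply mul_left_cancel₀ hg.ne_zero
    rw [hk]; ring

/-- the divisors of a product of two primes times `h` -/
theorem dvd_two_primes {g₁ g₂ h f : ℤ[X]} (hg₁ : Prime g₁) (hg₂ : Prime g₂)
    (hf : f ∣ (g₁ * g₂) * h) :
    ∃ f', f' ∣ h ∧ (f = f' ∨ f = g₁ * f' ∨ f = g₂ * f' ∨ f = (g₁ * g₂) * f') := by
  rw [mul_assoc] at hf
  rcases dvd_prime_mul hg₁ hf with h1 | ⟨f1, rfl, h1⟩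
  · rcases dvd_prime_mul hg₂ h1 with h2 | ⟨f2, rfl, h2⟩
    · exact ⟨f, h2, Or.inl rfl⟩
    · exact ⟨f2, h2, Or.inr (Or.inr (Or.inl rfl))⟩
  · rcases dvd_prime_mul hg₂ h1 with h2 | ⟨f2, rfl, h2⟩
    · exact ⟨f1, h2, Or.inr (Or.inl rfl)⟩
    · exact ⟨f2, h2, Or.inr (Or.inr (Or.inr (by ring)))⟩

end Pool.Agent.Helper431Heights
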